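import Mathlib

set_option autoImplicit false

universe u

namespace Pool.Agent.Results.MP_f6eb07_gt.TightMA

open Set Cardinal

/-- The countable chain condition for a partially ordered set `P`: every set of pairwise
incompatible elements is countable. -/
def CCC (P : Type) [PartialOrder P] : Prop :=
  ∀ A : Set P, (∀ p ∈ A, ∀ q ∈ A, p ≠ q → ¬ ∃ r : P, r ≤ p ∧ r ≤ q) → A.Countable

/-- Martin's axiom: for every nonempty ccc partially ordered set and every family of fewer than
continuum many dense subsets there is a filter meeting all of them. -/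
def MartinAxiom : Prop :=
  ∀ (P : Type) [PartialOrder P] [Nonempty P], CCC P →
    ∀ 𝒟 : Set (Set P), #𝒟 < 𝔠 → (∀ D ∈ 𝒟, ∀ p : P, ∃ q ∈ D, q ≤ p) →
      ∃ G : Set P, G.Nonempty ∧ (∀ p ∈ G, ∀ q : P, p ≤ q → q ∈ G) ∧
        (∀ p ∈ G, ∀ q ∈ G, ∃ r ∈ G, r ≤ p ∧ r ≤ q) ∧ ∀ D ∈ 𝒟, (G ∩ D).Nonempty

/-- The spread of a topological space: `ℵ₀` plus the supremum of the cardinalities of its
discrete subspaces. -/
noncomputable def spread (Z : Type u) [TopologicalSpace Z] : Cardinal.{u} :=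
  ℵ₀ + ⨆ D : {D : Set Z // DiscreteTopology D}, #D.1

/-- The tightness of a topological space: the least infinite cardinal `κ` such that every point in
the closure of a set `A` lies in the closure of a subset of `A` of cardinality at most `κ`. -/
noncomputable def tightness (X : Type u) [TopologicalSpace X] : Cardinal.{u} :=
  sInf {κ : Cardinal.{u} | ℵ₀ ≤ κ ∧ ∀ (A : Set X) (x : X), x ∈ closure A →
    ∃ B ⊆ A, #B ≤ κ ∧ x ∈ closure B}

lemma countable_of_spread {Z : Type u} [TopologicalSpace Z] (h : spread Z = ℵ₀)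
    (D : Set Z) (hD : DiscreteTopology D) : D.Countable := by
  rw [← Cardinal.le_aleph0_iff_set_countable]
  have h1 : #D ≤ ⨆ D : {D : Set Z // DiscreteTopology D}, #D.1 :=
    le_ciSup (f := fun D : {D : Set Z // DiscreteTopology D} => #D.1) Cardinal.bddAbove_of_small
      (⟨D, hD⟩ : {D : Set Z // DiscreteTopology D})
  calc #D ≤ ⨆ D : {D : Set Z // DiscreteTopology D}, #D.1 := h1
    _ ≤ spread Z := le_add_self
    _ = ℵ₀ := h

lemma no_unc_discrete {Z : Type u} [TopologicalSpace Z]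
    (hs : ∀ D : Set Z, DiscreteTopology D → D.Countable) {ι : Type} (h : ι → Z)
    (O : ι → Set Z) (hO : ∀ i, IsOpen (O i)) (hi : ∀ i, h i ∈ O i)
    (hij : ∀ i j, h j ∈ O i → j = i) : Countable ι := by
  have hinj : Function.Injective h := by
    intro i j hh
    exact hij j i (hh ▸ hi j)
  have hd : DiscreteTopology (range h) := by
    rw [discreteTopology_iff_isOpen_singleton]
    rintro ⟨_, i, rfl⟩
    refine ⟨O i, hO i, ?_⟩
    ext ⟨z, j, rfl⟩
    constructor
    · intro hz
      have := hij i j hz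
      subst this
      rfl
    · intro hz
      have hz' : h j = h i := congrArg Subtype.val hz
      change h j ∈ O i
      rw [hz']
      exact hi i
  have hc := hs (range h) hd
  have h1 : Countable (range h) := hc.to_subtype
  exact (Equiv.ofInjective h hinj).countable_iff.mpr h1

section order

set_option linter.unusedSectionVars false

variable {W : Type} [LinearOrder W] [WellFoundedLT W]

lemma exists_bound (hc : ∀ a : W, (Iio a).Countable) (hu : ¬ Countable W)
    {A : Set W} (hA : A.Countable) : ∃ b, ∀ a ∈ A, a < b := by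
  by_contra h
  push Not at h
  apply hu
  rw [← Set.countable_univ_iff]
  have hsub : (univ : Set W) ⊆ ⋃ a ∈ A, Iic a := by
    intro x _
    obtain ⟨a, haA, hxa⟩ := h x
    exact mem_biUnion haA hxa
  refine (hA.biUnion ?_).mono hsub
  intro a _
  rw [← Iio_insert]
  exact (hc a).insert a

/-- Recursion along `W`: if every countable subset of `T` has a `good` element, then there is a
sequence each term of which is good for the set of the previous ones. -/
lemma rec_seq {T : Type u} (hc : ∀ a : W, (Iio a).Countable)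
    (good : Set T → T → Prop) (hg : ∀ B : Set T, B.Countable → ∃ t, good B t) :
    ∃ p : W → T, ∀ i, good (p '' Iio i) (p i) := by
  classical
  have key : ∀ (i : W) (f : (j : W) → j < i → T),
      ∃ t, good (Set.range (fun j : Iio i => f j.1 j.2)) t := by
    intro i f
    have : Countable (Iio i) := (hc i).to_subtype
    exact hg _ (countable_range _)
  let F : (i : W) → ((j : W) → j < i → T) → T := fun i f => Classical.choose (key i f)
  have hF : ∀ (i : W) (f : (j : W) → j < i → T),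
      good (Set.range (fun j : Iio i => f j.1 j.2)) (F i f) :=
    fun i f => Classical.choose_spec (key i f)
  let p : W → T := (wellFounded_lt (α := W)).fix F
  have hp : ∀ i, p i = F i (fun j _ => p j) := fun i => (wellFounded_lt (α := W)).fix_eq F i
  refine ⟨p, fun i => ?_⟩
  have h1 := hF i (fun j _ => p j)
  rw [← hp i] at h1
  have h2 : Set.range (fun j : Iio i => p j.1) = p '' Iio i := by
    ext t
    constructor
    · rintro ⟨⟨j, hj⟩, rfl⟩
      exact ⟨j, hj, rfl⟩
    · rintro ⟨j, hj, rfl⟩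
      exact ⟨⟨j, hj⟩, rfl⟩
  rw [← h2]
  exact h1

end order

section main

variable {W : Type} [LinearOrder W] [WellFoundedLT W] {X : Type u} [TopologicalSpace X]

/-- The compatible finite sets. -/
def OK (x : W → X) (g : W → X → ℝ) (E : Finset W) : Prop :=
  ∀ η ∈ E, ∀ ξ ∈ E, η < ξ → g η (x ξ) ≤ 1 / 2

/-- An increasing sequence of pairwise incompatible finite sets gives an uncountable discrete set
of functions. -/
lemma blocks (hc : ∀ a : W, (Iio a).Countable) (hu : ¬ Countable W)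
    (hs : ∀ D : Set {f : X → ℝ // Continuous f}, DiscreteTopology D → D.Countable)
    (x : W → X) (g : W → X → ℝ) (hgc : ∀ ξ, Continuous (g ξ))
    (hg0 : ∀ ξ y, 0 ≤ g ξ y) (hg1 : ∀ ξ y, g ξ y ≤ 1)
    (hgx : ∀ ξ, g ξ (x ξ) = 1) (hgl : ∀ ξ η, η < ξ → g ξ (x η) = 0)
    (E : W → Finset W) (hne : ∀ i, (E i).Nonempty)
    (hlt : ∀ i j, i < j → ∀ η ∈ E i, ∀ ξ ∈ E j, η < ξ)
    (hinc : ∀ i j, i < j → ∃ η ∈ E i, ∃ ξ ∈ E j, 1 / 2 < g η (x ξ)) : False := by
  classical
  have hsucc : ∀ i : W, ∃ j, i < j := by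
    intro i
    obtain ⟨b, hb⟩ := exists_bound hc hu (A := {i}) (by simp)
    exact ⟨b, hb i (by simp)⟩
  -- the successor of i
  let s : W → W := fun i => wellFounded_lt.min {j | i < j} (hsucc i)
  have hs1 : ∀ i, i < s i := fun i => wellFounded_lt.min_mem {j | i < j} (hsucc i)
  have hs2 : ∀ i j, i < j → s i ≤ j := by
    intro i j hij
    by_contra h
    exact wellFounded_lt.not_lt_min {j | i < j} (x := j) hij (lt_of_not_ge h)
  let F : W → X → ℝ := fun i y => (E i).sup' (hne i) (fun η => g η y)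
  have hFc : ∀ i, Continuous (F i) := fun i =>
    Continuous.finset_sup'_apply (hne i) (fun η _ => hgc η)
  have hF1 : ∀ i y, F i y ≤ 1 := fun i y => Finset.sup'_le _ _ (fun η _ => hg1 η y)
  have hF0 : ∀ i y, 0 ≤ F i y := fun i y => by
    obtain ⟨η, hη⟩ := hne i
    exact (hg0 η y).trans (Finset.le_sup' (fun η => g η y) hη)
  have hFlow : ∀ i j, i < j → ∀ ξ ∈ E i, F j (x ξ) = 0 := by
    intro i j hij ξ hξ
    apply le_antisymm
    · apply Finset.sup'_le
      intro η hη
      exact (hgl η ξ (hlt i j hij ξ hξ η hη)).le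
    · exact hF0 _ _
  have hFeq : ∀ i, ∀ ξ ∈ E i, F i (x ξ) = 1 := by
    intro i ξ hξ
    apply le_antisymm (hF1 _ _)
    have := Finset.le_sup' (fun η => g η (x ξ)) hξ
    rw [hgx ξ] at this
    exact this
  have hFhigh : ∀ i j, i < j → ∃ ξ ∈ E j, 1 / 2 < F i (x ξ) := by
    intro i j hij
    obtain ⟨η, hη, ξ, hξ, h⟩ := hinc i j hij
    exact ⟨ξ, hξ, h.trans_le (Finset.le_sup' (fun η => g η (x ξ)) hη)⟩
  apply hu
  refine no_unc_discrete hs (ι := W)
    (fun i => ⟨fun y => F i y - F (s i) y, (hFc i).sub (hFc (s i))⟩)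
    (fun i => {f | ∀ ξ ∈ E i, 1 / 2 < f.1 (x ξ)}) ?_ ?_ ?_
  · intro i
    have h1 : {f : {f : X → ℝ // Continuous f} | ∀ ξ ∈ E i, 1 / 2 < f.1 (x ξ)}
        = ⋂ ξ ∈ E i, {f | 1 / 2 < f.1 (x ξ)} := by
      ext f
      simp
    rw [h1]
    apply isOpen_biInter_finset
    intro ξ _
    exact isOpen_lt continuous_const ((continuous_apply (x ξ)).comp continuous_subtype_val)
  · intro i ξ hξ
    change 1 / 2 < F i (x ξ) - F (s i) (x ξ)
    rw [hFeq i ξ hξ, hFlow i (s i) (hs1 i) ξ hξ]
    norm_num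
  · intro i j hj
    have hj' : ∀ ξ ∈ E i, 1 / 2 < F j (x ξ) - F (s j) (x ξ) := hj
    rcases lt_trichotomy i j with h | h | h
    · exfalso
      obtain ⟨ξ, hξ⟩ := hne i
      have h1 := hj' ξ hξ
      rw [hFlow i j h ξ hξ, hFlow i (s j) (h.trans (hs1 j)) ξ hξ] at h1
      norm_num at h1
    · exact h.symm
    · exfalso
      rcases lt_or_eq_of_le (hs2 j i h) with h2 | h2
      · obtain ⟨ξ, hξ, h3⟩ := hFhigh (s j) i h2
        have h1 := hj' ξ hξ
        have h4 := hF1 j (x ξ)
        linarith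
      · obtain ⟨ξ, hξ⟩ := hne i
        have h1 := hj' ξ hξ
        rw [h2, hFeq i ξ hξ] at h1
        have h4 := hF1 j (x ξ)
        linarith

/-- There is no uncountable family of pairwise incompatible finite sets of a fixed size. -/
lemma no_antichain (hc : ∀ a : W, (Iio a).Countable) (hu : ¬ Countable W)
    (hs : ∀ D : Set {f : X → ℝ // Continuous f}, DiscreteTopology D → D.Countable)
    (x : W → X) (g : W → X → ℝ) (hgc : ∀ ξ, Continuous (g ξ))
    (hg0 : ∀ ξ y, 0 ≤ g ξ y) (hg1 : ∀ ξ y, g ξ y ≤ 1)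
    (hgx : ∀ ξ, g ξ (x ξ) = 1) (hgl : ∀ ξ η, η < ξ → g ξ (x η) = 0) (n : ℕ) :
    ∀ 𝒜 : Set (Finset W), (∀ E ∈ 𝒜, E.card = n) → (∀ E ∈ 𝒜, OK x g E) →
      (∀ E ∈ 𝒜, ∀ E' ∈ 𝒜, E ≠ E' → ¬ OK x g (E ∪ E')) → 𝒜.Countable := by
  classical
  induction n with
  | zero =>
    intro 𝒜 h1 _ _
    refine (Set.countable_singleton (∅ : Finset W)).mono ?_
    intro E hE
    exact Finset.card_eq_zero.mp (h1 E hE)
  | succ n ih =>
    intro 𝒜 h1 h2 h3
    by_contra hunc
    -- each point lies in countably many members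
    have hpt : ∀ w : W, {E ∈ 𝒜 | w ∈ E}.Countable := by
      intro w
      have hinj : Set.InjOn (fun E : Finset W => E.erase w) {E ∈ 𝒜 | w ∈ E} := by
        intro E hE E' hE' hEE'
        have h4 : E.erase w = E'.erase w := hEE'
        rw [← Finset.insert_erase hE.2, ← Finset.insert_erase hE'.2, h4]
      have h5 : ((fun E : Finset W => E.erase w) '' {E ∈ 𝒜 | w ∈ E}).Countable := by
        apply ih
        · rintro _ ⟨E, hE, rfl⟩
          simp only [Finset.card_erase_of_mem hE.2, h1 E hE.1, Nat.add_sub_cancel]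
        · rintro _ ⟨E, hE, rfl⟩ η hη ξ hξ hlt
          exact h2 E hE.1 η (Finset.mem_of_mem_erase hη) ξ (Finset.mem_of_mem_erase hξ) hlt
        · rintro _ ⟨E, hE, rfl⟩ _ ⟨E', hE', rfl⟩ hne hOK
          have hne' : E ≠ E' := by
            rintro rfl
            exact hne rfl
          apply h3 E hE.1 E' hE'.1 hne'
          intro η hη ξ hξ hlt
          by_cases h6 : η ∈ E ∧ ξ ∈ E
          · exact h2 E hE.1 η h6.1 ξ h6.2 hlt
          by_cases h7 : η ∈ E' ∧ ξ ∈ E'
          · exact h2 E' hE'.1 η h7.1 ξ h7.2 hlt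
          have hηw : η ≠ w := by
            rintro rfl
            rcases Finset.mem_union.mp hξ with h8 | h8
            · exact h6 ⟨hE.2, h8⟩
            · exact h7 ⟨hE'.2, h8⟩
          have hξw : ξ ≠ w := by
            rintro rfl
            rcases Finset.mem_union.mp hη with h8 | h8
            · exact h6 ⟨h8, hE.2⟩
            · exact h7 ⟨h8, hE'.2⟩
          refine hOK η ?_ ξ ?_ hlt
          · simp only [Finset.mem_union, Finset.mem_erase]
            rcases Finset.mem_union.mp hη with h8 | h8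
            · exact Or.inl ⟨hηw, h8⟩
            · exact Or.inr ⟨hηw, h8⟩
          · simp only [Finset.mem_union, Finset.mem_erase]
            rcases Finset.mem_union.mp hξ with h8 | h8
            · exact Or.inl ⟨hξw, h8⟩
            · exact Or.inr ⟨hξw, h8⟩
      exact Set.countable_of_injective_of_countable_image hinj h5
    -- choose an increasing sequence
    have hgood : ∀ B : Set 𝒜, B.Countable → ∃ E : 𝒜, ∀ E' ∈ B, ∀ η ∈ E'.1, ∀ ξ ∈ E.1, η < ξ := by
      intro B hB
      have hU : (⋃ E' ∈ B, (E'.1 : Set W)).Countable :=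
        hB.biUnion (fun E' _ => E'.1.countable_toSet)
      obtain ⟨b, hb⟩ := exists_bound hc hu hU
      have hbad : (⋃ w ∈ Iio b, {E ∈ 𝒜 | w ∈ E}).Countable :=
        (hc b).biUnion (fun w _ => hpt w)
      obtain ⟨E, hE, hEb⟩ : ∃ E ∈ 𝒜, E ∉ ⋃ w ∈ Iio b, {E ∈ 𝒜 | w ∈ E} := by
        by_contra hno
        push Not at hno
        exact hunc (hbad.mono hno)
      refine ⟨⟨E, hE⟩, fun E' hE' η hη ξ hξ => ?_⟩
      have h4 : η < b := hb η (mem_biUnion hE' hη)
      have h5 : ¬ ξ < b := by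
        intro h6
        exact hEb (mem_biUnion h6 ⟨hE, hξ⟩)
      exact h4.trans_le (not_lt.mp h5)
    obtain ⟨p, hp⟩ := rec_seq (W := W) hc
      (fun (B : Set 𝒜) (E : 𝒜) => ∀ E' ∈ B, ∀ η ∈ E'.1, ∀ ξ ∈ E.1, η < ξ) hgood
    have hlt : ∀ i j, i < j → ∀ η ∈ (p i).1, ∀ ξ ∈ (p j).1, η < ξ :=
      fun i j hij => hp j (p i) (mem_image_of_mem p hij)
    have hne : ∀ i, (p i).1.Nonempty := fun i => by
      rw [← Finset.card_pos, h1 _ (p i).2]
      exact Nat.succ_pos n
    refine blocks hc hu hs x g hgc hg0 hg1 hgx hgl (fun i => (p i).1) hne hlt ?_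
    intro i j hij
    have hnij : (p i).1 ≠ (p j).1 := by
      intro h
      obtain ⟨ξ, hξ⟩ := hne i
      exact lt_irrefl ξ (hlt i j hij ξ hξ ξ (h ▸ hξ))
    have h4 := h3 _ (p i).2 _ (p j).2 hnij
    unfold OK at h4
    push Not at h4
    obtain ⟨η, hη, ξ, hξ, hηξ, h5⟩ := h4
    have hcase : η ∈ (p i).1 ∧ ξ ∈ (p j).1 := by
      rcases Finset.mem_union.mp hη with h6 | h6 <;> rcases Finset.mem_union.mp hξ with h7 | h7
      · exact absurd (h2 _ (p i).2 η h6 ξ h7 hηξ) (not_le.mpr h5)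
      · exact ⟨h6, h7⟩
      · exact absurd (hlt i j hij ξ h7 η h6) (lt_asymm hηξ)
      · exact absurd (h2 _ (p j).2 η h6 ξ h7 hηξ) (not_le.mpr h5)
    exact ⟨η, hcase.1, ξ, hcase.2, h5⟩

end main


/-- Under Martin's axiom and the failure of CH, countable spread of the function space implies
that the space is hereditarily separable. -/
theorem hsep (hMA : MartinAxiom) (hCH : (ℵ₁ : Cardinal.{0}) < 𝔠) (X : Type u) [TopologicalSpace X] [T35Space X]
    (hs : ∀ D : Set {f : X → ℝ // Continuous f}, DiscreteTopology D → D.Countable) (A : Set X) :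
    ∃ B ⊆ A, B.Countable ∧ A ⊆ closure B := by
  classical
  by_contra hcon
  push Not at hcon
  let W : Type := (Cardinal.aleph 1).ord.ToType
  have hW : #W = ℵ₁ := by simp [W]
  have hc : ∀ a : W, (Iio a).Countable := by
    intro a
    have h1 : #(Iio a) < #W := Cardinal.mk_Iio_lt a (by simp [W])
    rw [hW] at h1
    rw [← Cardinal.le_aleph0_iff_set_countable, ← Order.lt_succ_iff, ← Cardinal.aleph_zero,
      Cardinal.succ_aleph]
    simpa using h1
  have hu : ¬ Countable W := by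
    intro h
    have h1 := Cardinal.mk_le_aleph0_iff.mpr h
    rw [hW] at h1
    exact absurd h1 (not_le.mpr Cardinal.aleph0_lt_aleph_one)
  -- the left separated sequence
  have hgood : ∀ B : Set A, B.Countable → ∃ t : A, (t : X) ∉ closure (Subtype.val '' B) := by
    intro B hB
    have h1 := hcon (Subtype.val '' B) (by rintro _ ⟨a, _, rfl⟩; exact a.2) (hB.image _)
    rw [Set.not_subset] at h1
    obtain ⟨a, haA, ha⟩ := h1
    exact ⟨⟨a, haA⟩, ha⟩
  obtain ⟨p, hp⟩ := rec_seq (W := W) hc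
    (fun (B : Set A) (t : A) => (t : X) ∉ closure (Subtype.val '' B)) hgood
  let x : W → X := fun i => (p i : X)
  have hx : ∀ i, x i ∉ closure (x '' Iio i) := by
    intro i
    have h1 := hp i
    rw [Set.image_image] at h1
    exact h1
  have hcr : ∀ i, ∃ f : X → unitInterval, Continuous f ∧ f (x i) = 0 ∧
      Set.EqOn f 1 (closure (x '' Iio i)) := fun i =>
    CompletelyRegularSpace.completely_regular (x i) (closure (x '' Iio i)) isClosed_closure (hx i)
  choose f hfc hf0 hf1 using hcr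
  let g : W → X → ℝ := fun i y => 1 - (f i y : ℝ)
  have hgc : ∀ ξ, Continuous (g ξ) := fun ξ =>
    continuous_const.sub (continuous_subtype_val.comp (hfc ξ))
  have hg0 : ∀ ξ y, 0 ≤ g ξ y := fun ξ y => sub_nonneg.mpr (f ξ y).2.2
  have hg1 : ∀ ξ y, g ξ y ≤ 1 := fun ξ y => sub_le_self _ (f ξ y).2.1
  have hgx : ∀ ξ, g ξ (x ξ) = 1 := fun ξ => by simp [g, hf0 ξ]
  have hgl : ∀ ξ η, η < ξ → g ξ (x η) = 0 := by
    intro ξ η h
    have h1 : f ξ (x η) = 1 := hf1 ξ (subset_closure (mem_image_of_mem x h))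
    simp [g, h1]
  -- the poset
  let P : Type := {E : (Finset W)ᵒᵈ // OK x g (OrderDual.ofDual E)}
  have hccc : CCC P := by
    intro 𝒜 h𝒜
    let cv : P → Finset W := fun q => OrderDual.ofDual q.1
    have hcv : Function.Injective cv := fun a b h => Subtype.ext (OrderDual.ofDual.injective h)
    have h1 : ∀ n : ℕ, {E ∈ cv '' 𝒜 | E.card = n}.Countable := by
      intro n
      apply no_antichain hc hu hs x g hgc hg0 hg1 hgx hgl n
      · intro E hE
        exact hE.2
      · rintro _ ⟨⟨q, _, rfl⟩, _⟩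
        exact q.2
      · rintro _ ⟨⟨q, hq, rfl⟩, _⟩ _ ⟨⟨q', hq', rfl⟩, _⟩ hne hOK
        have hne' : q ≠ q' := by
          rintro rfl
          exact hne rfl
        apply h𝒜 q hq q' hq' hne'
        refine ⟨⟨OrderDual.toDual (cv q ∪ cv q'), hOK⟩, ?_, ?_⟩
        · exact Finset.subset_union_left
        · exact Finset.subset_union_right
    have h2 : (cv '' 𝒜).Countable := by
      refine (Set.countable_iUnion h1).mono ?_
      intro E hE
      exact mem_iUnion.mpr ⟨E.card, hE, rfl⟩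
    exact Set.countable_of_injective_of_countable_image hcv.injOn h2
  have hmem : ∀ q r : P, q ≤ r → ∀ ξ ∈ OrderDual.ofDual r.1, ξ ∈ OrderDual.ofDual q.1 :=
    fun q r h => h
  -- a condition forcing the generic to be unbounded
  have hp0 : ∃ p0 : P, ∀ α : W, ∀ q ≤ p0, ∃ r ≤ q, ∃ ξ ∈ OrderDual.ofDual r.1, α < ξ := by
    by_contra hno
    push Not at hno
    choose a Q hQ1 hQ2 using hno
    let sg : W → P := fun ξ => ⟨OrderDual.toDual {ξ}, by
      intro η hη ξ' hξ' hlt
      have h1 : η = ξ := by simpa using hη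
      have h2 : ξ' = ξ := by simpa using hξ'
      rw [h1, h2] at hlt
      exact absurd hlt (lt_irrefl _)⟩
    have hsg : ∀ ξ, ξ ∈ OrderDual.ofDual (Q (sg ξ)).1 := fun ξ =>
      hmem _ _ (hQ1 (sg ξ)) ξ (Finset.mem_singleton_self ξ)
    obtain ⟨t, ht⟩ := rec_seq (W := W) hc
      (fun (B : Set W) (t : W) => ∀ η ∈ B, a (sg η) < t) (by
        intro B hB
        obtain ⟨b, hb⟩ := exists_bound hc hu (hB.image (fun η => a (sg η)))
        exact ⟨b, fun η hη => hb _ (mem_image_of_mem _ hη)⟩)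
    have ht' : ∀ j i, j < i → a (sg (t j)) < t i := fun j i hji => ht i (t j) (mem_image_of_mem t hji)
    have hinc : ∀ j i, j < i → ¬ ∃ r : P, r ≤ Q (sg (t j)) ∧ r ≤ Q (sg (t i)) := by
      rintro j i hji ⟨r, hr1, hr2⟩
      exact hQ2 (sg (t j)) r hr1 (t i) (hmem _ _ hr2 _ (hsg (t i))) |>.not_gt (ht' j i hji)
    have hinj : Function.Injective (fun i => Q (sg (t i))) := by
      intro i j hij
      have hij' : Q (sg (t i)) = Q (sg (t j)) := hij
      rcases lt_trichotomy i j with h | h | h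
      · exact absurd ⟨Q (sg (t i)), le_rfl, hij'.le⟩ (hinc i j h)
      · exact h
      · exact absurd ⟨Q (sg (t i)), hij'.le, le_rfl⟩ (hinc j i h)
    have hcount := hccc (range (fun i => Q (sg (t i)))) (by
      rintro _ ⟨i, rfl⟩ _ ⟨j, rfl⟩ hne
      have hij : i ≠ j := by
        rintro rfl
        exact hne rfl
      rcases lt_or_gt_of_ne hij with h | h
      · exact hinc i j h
      · rintro ⟨r, hr1, hr2⟩
        exact hinc j i h ⟨r, hr2, hr1⟩)
    apply hu
    have h1 : Countable (range (fun i => Q (sg (t i)))) := hcount.to_subtype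
    exact (Equiv.ofInjective _ hinj).countable_iff.mpr h1
  obtain ⟨p0, hp0⟩ := hp0
  let P' : Type := {q : P // q ≤ p0}
  have hne' : Nonempty P' := ⟨⟨p0, le_rfl⟩⟩
  have hccc' : CCC P' := by
    intro 𝒜 h𝒜
    have h1 := hccc (Subtype.val '' 𝒜) (by
      rintro _ ⟨q, hq, rfl⟩ _ ⟨q', hq', rfl⟩ hne ⟨r, hr1, hr2⟩
      refine h𝒜 q hq q' hq' (fun h => hne (by rw [h])) ⟨⟨r, hr1.trans q.2⟩, hr1, hr2⟩)
    exact Set.countable_of_injective_of_countable_image Subtype.val_injective.injOn h1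
  let Dn : W → Set P' := fun α => {q | ∃ ξ ∈ OrderDual.ofDual q.1.1, α < ξ}
  obtain ⟨G, _, hGup, hGdir, hGD⟩ := hMA P' hccc' (range Dn)
    (lt_of_le_of_lt (Cardinal.mk_range_le) (by rw [hW]; exact hCH)) (by
      rintro _ ⟨α, rfl⟩ q
      obtain ⟨r, hr, ξ, hξ, hα⟩ := hp0 α q.1 q.2
      exact ⟨⟨r, hr.trans q.2⟩, ⟨ξ, hξ, hα⟩, hr⟩)
  let S : Set W := {ξ | ∃ q ∈ G, ξ ∈ OrderDual.ofDual q.1.1}
  have hSunc : ¬ S.Countable := by
    intro hS
    obtain ⟨b, hb⟩ := exists_bound hc hu hS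
    obtain ⟨q, hqG, ξ, hξ, hbξ⟩ := hGD (Dn b) (mem_range_self b)
    exact absurd (hb ξ ⟨q, hqG, hξ⟩) (lt_asymm hbξ)
  have hSOK : ∀ η ∈ S, ∀ ξ ∈ S, η < ξ → g η (x ξ) ≤ 1 / 2 := by
    rintro η ⟨q1, hq1, hη⟩ ξ ⟨q2, hq2, hξ⟩ hlt
    obtain ⟨r, _, hr1, hr2⟩ := hGdir q1 hq1 q2 hq2
    exact r.1.2 η (hmem _ _ hr1 η hη) ξ (hmem _ _ hr2 ξ hξ) hlt
  apply hSunc
  have hfin : Countable S := no_unc_discrete hs (ι := S)
    (fun ξ => ⟨g ξ.1, hgc ξ.1⟩) (fun ξ => {f | 1 / 2 < f.1 (x ξ.1)})
    (fun ξ => isOpen_lt continuous_const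
      ((continuous_apply (x ξ.1)).comp continuous_subtype_val))
    (fun ξ => by
      change 1 / 2 < g ξ.1 (x ξ.1)
      rw [hgx]
      norm_num)
    (fun i j hj => by
      have hj' : 1 / 2 < g j.1 (x i.1) := hj
      rcases lt_trichotomy i.1 j.1 with h | h | h
      · rw [hgl j.1 i.1 h] at hj'
        norm_num at hj'
      · exact Subtype.ext h.symm
      · exact absurd hj' (not_lt.mpr (hSOK j.1 j.2 i.1 i.2 h)))
  exact hfin.to_set

/-- Assume Martin's axiom and the failure of the continuum hypothesis. If `X` is a Tychonoff space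
such that `C_p(X)` has countable spread, then `X` has countable tightness. -/
theorem result (hMA : MartinAxiom) (hCH : (ℵ₁ : Cardinal.{0}) < 𝔠) (X : Type u)
    [TopologicalSpace X] [T35Space X]
    (hs : spread {f : X → ℝ // Continuous f} = ℵ₀) : tightness X = ℵ₀ := by
  have hmem : ℵ₀ ∈ {κ : Cardinal.{u} | ℵ₀ ≤ κ ∧ ∀ (A : Set X) (x : X), x ∈ closure A →
      ∃ B ⊆ A, #B ≤ κ ∧ x ∈ closure B} := by
    refine ⟨le_rfl, fun A x hx => ?_⟩
    obtain ⟨B, hBA, hB, hB2⟩ := hsep hMA hCH X (countable_of_spread hs) A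
    exact ⟨B, hBA, Cardinal.le_aleph0_iff_set_countable.mpr hB,
      closure_minimal hB2 isClosed_closure hx⟩
  exact le_antisymm (csInf_le' hmem) (le_csInf ⟨_, hmem⟩ (fun κ hκ => hκ.1))

end Pool.Agent.Results.MP_f6eb07_gt.TightMA
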